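import Pool.Agent.H10.PG.Main

set_option autoImplicit false

namespace Pool.Agent.Results.MP_89fae5_co.PathGraphAut

open Pool.Agent.H10.PG

/-- For every `n ≥ 5` the natural homomorphism from the symmetric group on `Fin n` to the
automorphism group of the path graph of the complete graph on `Fin n` is an isomorphism. -/
theorem result : ∀ n : ℕ, 5 ≤ n → Function.Bijective (permHom (Fin n)) := by
  intro n hn
  haveI : Nonempty (Fin n) := ⟨⟨0, by omega⟩⟩
  have hc : Fintype.card (Fin n) = n := Fintype.card_fin n
  exact ⟨permHom_injective (by omega), permHom_surjective (by omega)⟩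

end Pool.Agent.Results.MP_89fae5_co.PathGraphAut
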